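import Pool.Agent.Helper46.EX.Lin
import Pool.Agent.Helper50.EX.StmA

/-!
# Project EX, package FNA: the final theorem in the affine case
-/

set_option autoImplicit false
set_option linter.unusedSectionVars false

namespace Pool.Agent.Helper46.EX

open Finset Pool.Agent.Helper46.AQ Pool.Agent.Helper50.EX Pool.Agent.Helper50.EX.A

/-- **FNA** -/
theorem fna (hGL : S_GL2) (hRB : S_RBA) : S_FNA := by
  intro p _ k _ _ _ n R hR G _ ρ hρ
  classical
  have hpK : ∀ x : KK k n, p • x = 0 := by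
    intro x
    have h1 : CharP (KK k n) p := charP_of_injective_algebraMap (algebraMap k (KK k n)).injective p
    rw [nsmul_eq_mul, CharP.cast_eq_zero, zero_mul]
  have hfin := finite_clos p hpK (TT_fin ρ)
  have hb := base_aff ρ (deg_le ρ (M := fun g => (R (g : GL (Fin 2) k)).val) hρ) hfin
  have hfinG : Finite (rK ρ).range :=
    Finite.of_surjective (rK ρ).rangeRestrict (rK ρ).rangeRestrict_surjective
  refine hRB p k (KK k n) (rK ρ).range (rK ρ).range.subtype (Ps k n).range (PP ρ hfin) n hb ?_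
    (fun γ h => Subtype.ext h) range_ic (iv ρ) ((Ps k n).comp (iv ρ).val)
    (Ps_inj.comp Subtype.val_injective) ?_
  · intro I hI
    exact expOn ρ hρ (fun P hP => mat_exp hGL hR G P hP) _ (fun z hz => ((mem_PP ρ).1 hz).2) I hI
  · intro x
    constructor
    · rintro ⟨a, rfl⟩
      refine ⟨⟨a, rfl⟩, ?_⟩
      rintro ⟨_, ⟨g, rfl⟩⟩
      change rK ρ g (Ps k n a) = Ps k n a
      rw [rK_Ps, a.2 g]
    · rintro ⟨⟨f, rfl⟩, h⟩
      refine ⟨⟨f, fun g => Ps_inj ?_⟩, rfl⟩
      rw [← rK_Ps]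
      exact h ⟨rK ρ g, ⟨g, rfl⟩⟩

end Pool.Agent.Helper46.EX
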