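import Pool.Agent.Helper50.EX.StmP

/-!
# Project EX, package FNP: the final theorem in the projective case
-/

set_option autoImplicit false
set_option linter.unusedSectionVars false

namespace Pool.Agent.Helper46.EXP

open Finset Pool.Agent.Helper46.AQ Pool.Agent.Helper49.PN
  Pool.Agent.Helper12.PN Pool.Agent.Helper49 Pool.Agent.Helper50.EX MvPolynomial

/-- A surjection of finite groups maps some `p`-subgroup onto a given `p`-subgroup. -/
theorem lift_p {p : ℕ} [Fact p.Prime] {G H : Type} [Group G] [Finite G] [Group H] {f : G →* H}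
    (hf : Function.Surjective f) (I : Subgroup H) (hI : IsPGroup p I) :
    ∃ P : Subgroup G, IsPGroup p P ∧ (∀ x ∈ P, f x ∈ I) ∧ ∀ y ∈ I, ∃ x ∈ P, f x = y := by
  have hs := MonoidHom.subgroupComap_surjective_of_surjective f I hf
  obtain ⟨P⟩ : Nonempty (Sylow p (I.comap f)) := inferInstance
  have hH : Finite H := Finite.of_surjective f hf
  set Q := P.mapSurjective hs with hQ
  have htop : (⊤ : Subgroup I) = Q := Q.is_maximal' (hI.to_subgroup ⊤) le_top
  refine ⟨(P : Subgroup (I.comap f)).map (I.comap f).subtype, P.2.map _, ?_, ?_⟩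
  · rintro _ ⟨x, -, rfl⟩
    exact x.2
  · intro y hy
    have h1 : (⟨y, hy⟩ : I) ∈ (Q : Subgroup I) := by
      rw [← htop]; exact Subgroup.mem_top _
    rw [hQ, Sylow.coe_mapSurjective] at h1
    obtain ⟨x, hx, hxy⟩ := h1
    exact ⟨x, ⟨x, hx, rfl⟩, congrArg Subtype.val hxy⟩

section gen

variable {k K : Type} [Field k] [Field K] [Algebra k K] {G : Type} [Group G]
  (σ : G →* (K ≃ₐ[k] K)) {ι : Type} [Fintype ι] [DecidableEq ι] {M : G → Matrix ι ι k}
  {T : (ι → k) →ₗ[k] K} (hT : ∀ g v, σ g (T v) = T ((M g).mulVec v))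

include hT in
theorem iter_T (τ : G) (m : ℕ) (v : ι → k) :
    (fun z => σ τ z - z)^[m] (T v) = T (((M τ - 1) ^ m).mulVec v) := by
  induction m with
  | zero => simp
  | succ m ih =>
    rw [Function.iterate_succ_apply', ih]
    show σ τ (T (((M τ - 1) ^ m).mulVec v)) - T (((M τ - 1) ^ m).mulVec v) = _
    rw [hT, ← map_sub]
    congr 1
    rw [pow_succ', ← Matrix.mulVec_mulVec, Matrix.sub_mulVec, Matrix.one_mulVec]

theorem iter_fix (τ : G) (m : ℕ) (hm : m ≠ 0) {x : K} (hx : σ τ x = x) :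
    (fun z => σ τ z - z)^[m] x = 0 := by
  obtain ⟨l, rfl⟩ := Nat.exists_eq_succ_of_ne_zero hm
  have h0 : ∀ l : ℕ, (fun z => σ τ z - z)^[l] (0 : K) = 0 := by
    intro l
    induction l with
    | zero => rfl
    | succ l ih => rw [Function.iterate_succ_apply', ih]; simp
  rw [Function.iterate_succ_apply]
  simp only [hx, sub_self]
  exact h0 l

theorem iter_lin (τ : G) (m : ℕ) : ∃ D : K →ₗ[k] K, ∀ z,
    D z = (fun z => σ τ z - z)^[m] z := by
  refine ⟨((σ τ : K ≃ₐ[k] K).toLinearMap - 1) ^ m, fun z => ?_⟩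
  rw [Module.End.pow_apply]
  rfl

theorem bn_zero {k : Type} [Field k] (a : k) : bn a 0 = 1 := by
  simp [bn]

include hT in
/-- The formula for the matrices gives the formula on the additive group generated by a set of
elements which are fixed or of the form `T v`. -/
theorem exp_clos {p : ℕ} [hp : Fact p.Prime] (g τ : G) (a : k)
    (h : M g = ∑ m ∈ range p, bn a m • (M τ - 1) ^ m) {S : Set K}
    (hS : ∀ z ∈ S, (∃ v, z = T v) ∨ ∀ g, σ g z = z) {z : K}
    (hz : z ∈ AddSubgroup.closure S) :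
    σ g z = ∑ m ∈ range p, bn a m • (fun z => σ τ z - z)^[m] z := by
  choose D hD using iter_lin σ τ
  let E : K →ₗ[k] K := (σ g : K ≃ₐ[k] K).toLinearMap - ∑ m ∈ range p, bn a m • D m
  have hE : ∀ z, E z = σ g z - ∑ m ∈ range p, bn a m • (fun z => σ τ z - z)^[m] z := by
    intro z
    show σ g z - (∑ m ∈ range p, bn a m • D m) z = _
    rw [LinearMap.sum_apply]
    congr 1
    refine Finset.sum_congr rfl fun m _ => ?_
    rw [LinearMap.smul_apply, hD]
  have hle : AddSubgroup.closure S ≤ (LinearMap.ker E).toAddSubgroup := by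
    refine (AddSubgroup.closure_le _).2 ?_
    intro x hx
    show E x = 0
    rcases hS x hx with ⟨v, rfl⟩ | hf
    · rw [hE, hT, sub_eq_zero]
      have h1 : ∀ m ∈ range p, bn a m • (fun z => σ τ z - z)^[m] (T v) =
          T ((bn a m • (M τ - 1) ^ m).mulVec v) := by
        intro m _
        rw [iter_T σ hT, Matrix.smul_mulVec, map_smul]
      rw [Finset.sum_congr rfl h1, ← map_sum, ← Matrix.sum_mulVec, ← h]
    · rw [hE, hf g, sub_eq_zero]
      symm
      rw [Finset.sum_eq_single 0]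
      · rw [bn_zero, one_smul]; rfl
      · intro m _ hm
        rw [iter_fix σ τ m hm (hf τ), smul_zero]
      · intro h0
        exact absurd (Finset.mem_range.2 hp.out.pos) h0
  have := hle hz
  have h2 : E z = 0 := this
  rw [hE, sub_eq_zero] at h2
  exact h2

include hT in
/-- The `p`-subgroups of the image act exponentially. -/
theorem expOn {p : ℕ} [hp : Fact p.Prime] [Finite G]
    (hM : ∀ P : Subgroup G, IsPGroup p P → ∃ τ ∈ P, ∀ g ∈ P, ∃ a : k,
      M g = ∑ m ∈ range p, bn a m • (M τ - 1) ^ m) {S : Set K}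
    (hS : ∀ z ∈ S, (∃ v, z = T v) ∨ ∀ g, σ g z = z)
    (Φ : Finset K) (hΦ : ∀ z ∈ Φ, z ∈ AddSubgroup.closure S)
    (I : Subgroup σ.range) (hI : IsPGroup p I) :
    ExpOn σ.range.subtype Φ p I := by
  obtain ⟨P, hP, hPI, hIP⟩ := lift_p σ.rangeRestrict_surjective I hI
  obtain ⟨τ, hτ, hg⟩ := hM P hP
  refine ⟨σ.rangeRestrict τ, hPI τ hτ, fun g hgI => ?_⟩
  obtain ⟨γ, hγ, rfl⟩ := hIP g hgI
  obtain ⟨a, ha⟩ := hg γ hγ
  exact ⟨a, fun φ hφ => exp_clos σ hT γ τ a ha hS (hΦ φ hφ)⟩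

end gen

open Matrix in
/-- The hypothesis on the matrices from `S_GL2`. -/
theorem mat_exp (hGL : S_GL2) {p : ℕ} [Fact p.Prime] {k : Type} [Field k] [CharP k p] {n : ℕ}
    {R : GL (Fin 2) k →* GL (Fin n) k} (hR : IsPolyRep p R) (G : Subgroup (GL (Fin 2) k))
    [Finite G] (P : Subgroup G) (hP : IsPGroup p P) : ∃ τ ∈ P, ∀ g ∈ P, ∃ a : k,
      (R (g : GL (Fin 2) k)).val =
        ∑ m ∈ range p, bn a m • ((R (τ : GL (Fin 2) k)).val - 1) ^ m := by
  obtain ⟨τ, hτ⟩ := hGL p k n R hR P hP (G.subtype.comp P.subtype)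
  exact ⟨τ, τ.2, fun g hg => hτ ⟨g, hg⟩⟩

/-- Linear forms in a family of elements. -/
noncomputable def LF {k K ι : Type} [Field k] [Field K] [Algebra k K] [Fintype ι] (y : ι → K) :
    (ι → k) →ₗ[k] K where
  toFun v := ∑ i, v i • y i
  map_add' v w := by
    simp only [Pi.add_apply, add_smul, Finset.sum_add_distrib]
  map_smul' c v := by
    simp only [Pi.smul_apply, smul_eq_mul, mul_smul, RingHom.id_apply, Finset.smul_sum]

theorem LF_apply {k K ι : Type} [Field k] [Field K] [Algebra k K] [Fintype ι] (y : ι → K)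
    (v : ι → k) : LF y v = ∑ i, v i • y i := rfl

theorem LF_act {k K ι : Type} [Field k] [Field K] [Algebra k K] [Fintype ι] {y : ι → K}
    {G : Type} [Group G] {σ : G →* (K ≃ₐ[k] K)} {M : G → Matrix ι ι k}
    (h : ∀ g j, σ g (y j) = ∑ i, M g i j • y i) (g : G) (v : ι → k) :
    σ g (LF y v) = LF y ((M g).mulVec v) := by
  rw [LF_apply, LF_apply, map_sum]
  have h1 : ∀ i, σ g (v i • y i) = ∑ l, (M g l i * v i) • y l := by
    intro i
    rw [map_smul, h, Finset.smul_sum]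
    refine Finset.sum_congr rfl fun l _ => ?_
    rw [smul_smul, mul_comm]
  simp only [h1]
  rw [Finset.sum_comm]
  refine Finset.sum_congr rfl fun l _ => ?_
  rw [Matrix.mulVec, dotProduct, Finset.sum_smul]

/-- The projective case, general form. -/
theorem model_of (hRB : Pool.Agent.Helper50.EX.P.S_RBP) (p : ℕ) [Fact p.Prime] {k : Type} [Field k]
    [Finite k] [CharP k p] {n : ℕ} {G : Type} [Group G] [Finite G]
    (ρ : G →* (MvPolynomial (Fin (n + 1)) k ≃ₐ[k] MvPolynomial (Fin (n + 1)) k))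
    (hρ : ∀ g i, (ρ g (X i)).IsHomogeneous 1) {ι : Type} [Fintype ι] [DecidableEq ι]
    {M : G → Matrix ι ι k} {T : (ι → k) →ₗ[k] KK k (n + 1)}
    (hT : ∀ g v, rK ρ g (T v) = T ((M g).mulVec v))
    (hM : ∀ P : Subgroup G, IsPGroup p P → ∃ τ ∈ P, ∀ g ∈ P, ∃ a : k,
      M g = ∑ m ∈ range p, bn a m • (M τ - 1) ^ m)
    (hS : ∀ z ∈ TT ρ, (∃ v, z = T v) ∨ ∀ g, rK ρ g z = z) : HasModel (fx0 ρ) := by
  classical
  have hfin := TT_clos_fin ρ p
  have : Finite (rK ρ).range :=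
    Finite.of_surjective (rK ρ).rangeRestrict (rK ρ).rangeRestrict_surjective
  obtain ⟨b1, b2, b3, b4, b5, b6⟩ := base_lin (hfin := hfin) ρ hρ
  have hb : PQ.Base (rK ρ).range.subtype (Ps k (n + 1)).range (PP ρ hfin) (n + 1) :=
    ⟨b1, b2, b3, b4, b5, b6⟩
  have hF : ∀ a, a ∈ fx0 ρ ↔ a ∈ K0 k n ∧ ∀ γ, (rK ρ).range.subtype γ a = a := by
    intro a
    rw [mem_fx0]
    constructor
    · rintro ⟨h1, h2⟩
      refine ⟨h2, ?_⟩
      rintro ⟨_, g, rfl⟩
      exact h1 g
    · rintro ⟨h1, h2⟩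
      exact ⟨fun g => h2 ⟨_, g, rfl⟩, h1⟩
  have hSc : PQ.Scl (rK ρ).range.subtype (PP ρ hfin) (K0 k n) (fx0 ρ) (Ps k (n + 1) (X 0)) := by
    refine ⟨X_mem_PP ρ 0, tr_K0, ?_, ?_, hF⟩
    · intro a ha
      rw [zpow_one]
      exact PP_div_X_mem ρ hρ ha 0
    · rintro ⟨_, g, rfl⟩ a ha
      exact rK_K0 ρ hρ g ha
  exact hRB p k (KK k (n + 1)) (rK ρ).range (rK ρ).range.subtype (Ps k (n + 1)).range (PP ρ hfin)
    (K0 k n) (fx0 ρ) (Ps k (n + 1) (X 0)) (n + 1) hb
    (fun I hI => expOn (rK ρ) hT hM hS _ (fun z hz => ((mem_PP ρ).1 hz).2) I hI)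
    (fun γ h => Subtype.ext h) hSc (Ps_X_ne_zero 0)

/-- The degrees. -/
theorem hom_one {k : Type} [Field k] {n : ℕ} {G : Type} [Group G]
    (ρ : G →* (MvPolynomial (Fin n) k ≃ₐ[k] MvPolynomial (Fin n) k))
    {M : G → Matrix (Fin n) (Fin n) k}
    (hρ : ∀ g j, ρ g (X j) = ∑ i, C (M g i j) * X i) (g : G) (j : Fin n) :
    (ρ g (X j)).IsHomogeneous 1 := by
  rw [hρ]
  refine MvPolynomial.IsHomogeneous.sum _ _ _ fun i _ => ?_
  have := (MvPolynomial.isHomogeneous_C (Fin n) (M g i j)).mul (MvPolynomial.isHomogeneous_X k i)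
  rwa [zero_add] at this

/-- **FNP** -/
theorem fnp (hGL : S_GL2) (hRB : Pool.Agent.Helper50.EX.P.S_RBP) :
    Pool.Agent.Helper50.EX.P.S_FNP := by
  intro p _ k _ _ _ n R hR G ρ hρ
  classical
  have : Finite G := inferInstance
  have hM := mat_exp hGL hR G
  have hhom := hom_one ρ (M := fun g => (R (g : GL (Fin 2) k)).val) hρ
  have hdeg : ∀ g i, (ρ g (X i)).totalDegree ≤ 1 := fun g i => (hhom g i).totalDegree_le
  constructor
  · -- projective space
    have hact : ∀ (g : G) (j : Fin (n + 1)), rK ρ g (Ps k (n + 1) (X j)) =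
        ∑ i, (R (g : GL (Fin 2) k)).val i j • Ps k (n + 1) (X i) := by
      intro g j
      rw [rK_Ps, hρ, map_sum]
      refine Finset.sum_congr rfl fun i _ => ?_
      rw [← MvPolynomial.smul_eq_C_mul, map_smul]
    refine model_of hRB p ρ hhom (M := fun g => (R (g : GL (Fin 2) k)).val)
      (T := LF fun i => Ps k (n + 1) (X i)) (LF_act hact) hM ?_
    rintro _ ⟨⟨γ, j⟩, rfl⟩
    left
    refine ⟨fun i => (R (γ : GL (Fin 2) k)).val i j, ?_⟩
    rw [LF_apply]
    change Ps k (n + 1) (ρ γ (X j)) = _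
    rw [← rK_Ps, hact]
  · -- affine space
    have hsucc : ∀ (g : G) (j : Fin (n + 1)), hm ρ hdeg g (X j.succ) =
        ∑ i, (R (g : GL (Fin 2) k)).val i j • X i.succ := by
      intro g j
      rw [hm_succ, hρ, map_sum]
      refine Finset.sum_congr rfl fun i _ => ?_
      rw [← MvPolynomial.smul_eq_C_mul, map_smul, hg_X]
    have hact : ∀ (g : G) (j : Fin (n + 1)), rK (hm ρ hdeg) g (Ps k (n + 1 + 1) (X j.succ)) =
        ∑ i, (R (g : GL (Fin 2) k)).val i j • Ps k (n + 1 + 1) (X i.succ) := by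
      intro g j
      rw [rK_Ps, hsucc, map_sum]
      refine Finset.sum_congr rfl fun i _ => ?_
      rw [map_smul]
    have h0 := model_of hRB p (hm ρ hdeg) (hm_hom ρ hdeg)
      (M := fun g => (R (g : GL (Fin 2) k)).val)
      (T := LF fun i : Fin (n + 1) => Ps k (n + 1 + 1) (X i.succ)) (LF_act hact) hM ?_
    · obtain ⟨X', h1, g, h2, h3, ⟨h4⟩⟩ := h0
      exact ⟨X', h1, g, h2, h3, ⟨h4.trans (fxE ρ hdeg).symm.toRingEquiv⟩⟩
    · rintro _ ⟨⟨γ, j⟩, rfl⟩
      refine Fin.cases ?_ (fun j => ?_) j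
      · right
        intro g
        change rK (hm ρ hdeg) g (Ps k (n + 1 + 1) (hm ρ hdeg γ (X 0))) =
          Ps k (n + 1 + 1) (hm ρ hdeg γ (X 0))
        rw [hm_zero, rK_Ps, hm_zero]
      · left
        refine ⟨fun i => (R (γ : GL (Fin 2) k)).val i j, ?_⟩
        rw [LF_apply]
        change Ps k (n + 1 + 1) (hm ρ hdeg γ (X j.succ)) = _
        rw [← rK_Ps, hact]

end Pool.Agent.Helper46.EXP
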